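import Pool.Agent.H80.LD.Targets

set_option autoImplicit false

open MeasureTheory SchwartzMap Filter Topology
open scoped ENNReal ContDiff InnerProductSpace FourierTransform

namespace Pool.Agent.H82.LD

open Pool.Agent.H43.DPC (V S SD moment trans rot IsMAO IsDC Diag)
open Pool.Agent.H80.LD

/-- a map to a separable space has a countable almost dense set -/
theorem sep {T Z : Type*} [PseudoMetricSpace Z] [TopologicalSpace.SeparableSpace Z] (F : T → Z)
    (ε : ℝ) (hε : 0 < ε) : ∃ s : Set T, s.Countable ∧ ∀ t, ∃ u ∈ s, dist (F t) (F u) < ε := by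
  classical
  obtain ⟨D, hDc, hDd⟩ := TopologicalSpace.exists_countable_dense Z
  let D' : Set Z := {z | z ∈ D ∧ ∃ t, dist (F t) z < ε / 2}
  have hD' : D'.Countable := hDc.mono fun z hz => hz.1
  have hch : ∀ z : D', ∃ t, dist (F t) (z : Z) < ε / 2 := fun z => z.2.2
  choose c hc using hch
  have : Countable D' := hD'.to_subtype
  refine ⟨Set.range c, Set.countable_range c, fun t => ?_⟩
  obtain ⟨z, hz', hz⟩ := hDd.exists_dist_lt (F t) (half_pos hε)
  refine ⟨c ⟨z, hz', t, hz⟩, ⟨_, rfl⟩, ?_⟩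
  have h1 := hc ⟨z, hz', t, hz⟩
  have h2 := dist_triangle_right (F t) (F (c ⟨z, hz', t, hz⟩)) z
  have h3 : dist (F (c ⟨z, hz', t, hz⟩)) z < ε / 2 := h1
  linarith

instance fin_multi (d l : ℕ) : FiniteDimensional ℝ (V d [×l]→L[ℝ] ℝ) := by
  let Λ : (V d [×l]→L[ℝ] ℝ) →ₗ[ℝ] MultilinearMap ℝ (fun _ : Fin l => V d) ℝ :=
    { toFun := fun f => f.toMultilinearMap
      map_add' := fun f g => rfl
      map_smul' := fun c f => rfl }
  exact FiniteDimensional.of_injective Λ ContinuousMultilinearMap.toMultilinearMap_injective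

instance sep_multi (d l : ℕ) : SecondCountableTopology (V d [×l]→L[ℝ] ℝ) := by
  have : ProperSpace (V d [×l]→L[ℝ] ℝ) := FiniteDimensional.proper ℝ _
  infer_instance

/-- the derivative on a ball -/
noncomputable def res (d l : ℕ) (R : ℝ) (f : S d) :
    C(Metric.closedBall (0 : V d) R, V d [×l]→L[ℝ] ℝ) :=
  ⟨fun x => iteratedFDeriv ℝ l f x,
    ((f.smooth l).continuous_iteratedFDeriv').comp continuous_subtype_val⟩

/-- one seminorm -/
theorem dense_one (d k l : ℕ) (ε : ℝ) (hε : 0 < ε) : ∃ s : Set (S d), s.Countable ∧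
    ∀ f : S d, ∃ g ∈ s, SchwartzMap.seminorm ℝ k l (f - g) ≤ ε := by
  classical
  have key : ∀ n : ℕ, ∃ s : Set (S d), s.Countable ∧
      ∀ f : S d, SchwartzMap.seminorm ℝ (k + 1) l f ≤ n →
        ∃ g ∈ s, SchwartzMap.seminorm ℝ k l (f - g) ≤ ε := by
    intro n
    let T := {f : S d // SchwartzMap.seminorm ℝ (k + 1) l f ≤ n}
    let R : ℝ := 2 * n / ε + 1
    have hR : 0 < R := by positivity
    have hRk : 0 < R ^ k := by positivity
    have : CompactSpace (Metric.closedBall (0 : V d) R) :=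
      isCompact_iff_compactSpace.1 (isCompact_closedBall _ _)
    obtain ⟨s, hs, hs'⟩ := sep (T := T) (fun f => res d l R f.1) (ε / R ^ k) (by positivity)
    refine ⟨Subtype.val '' s, hs.image _, fun f hf => ?_⟩
    obtain ⟨g, hg, hfg⟩ := hs' ⟨f, hf⟩
    refine ⟨g.1, ⟨g, hg, rfl⟩, SchwartzMap.seminorm_le_bound ℝ k l _ hε.le fun x => ?_⟩
    have e1 : iteratedFDeriv ℝ l (⇑(f - g.1)) x =
        iteratedFDeriv ℝ l f x - iteratedFDeriv ℝ l g.1 x := by
      have h1 : (⇑(f - g.1) : V d → ℝ) = ⇑f - ⇑g.1 := rfl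
      rw [h1, iteratedFDeriv_sub_apply ((f.smooth l).contDiffAt) ((g.1.smooth l).contDiffAt)]
    rcases le_or_gt ‖x‖ R with hx | hx
    · have h2 := ContinuousMap.dist_apply_le_dist (f := res d l R f) (g := res d l R g.1)
        ⟨x, mem_closedBall_zero_iff.2 hx⟩
      have h3 : ‖iteratedFDeriv ℝ l (⇑(f - g.1)) x‖ ≤ ε / R ^ k := by
        rw [e1, ← dist_eq_norm]
        exact h2.trans hfg.le
      calc ‖x‖ ^ k * ‖iteratedFDeriv ℝ l (⇑(f - g.1)) x‖ ≤ R ^ k * (ε / R ^ k) :=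
            mul_le_mul (pow_le_pow_left₀ (norm_nonneg _) hx k) h3 (norm_nonneg _) hRk.le
        _ = ε := by field_simp
    · have h2 : ‖x‖ ^ (k + 1) * ‖iteratedFDeriv ℝ l (⇑(f - g.1)) x‖ ≤ 2 * n := by
        refine (SchwartzMap.le_seminorm ℝ (k + 1) l (f - g.1) x).trans ?_
        refine (map_sub_le_add _ _ _).trans ?_
        have := g.2
        linarith
      have hx0 : 0 < ‖x‖ := hR.trans hx
      have h4 : ‖x‖ * (‖x‖ ^ k * ‖iteratedFDeriv ℝ l (⇑(f - g.1)) x‖) ≤ 2 * n := by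
        calc _ = ‖x‖ ^ (k + 1) * ‖iteratedFDeriv ℝ l (⇑(f - g.1)) x‖ := by ring
          _ ≤ _ := h2
      have h5 : 2 * n ≤ ‖x‖ * ε := by
        have : 2 * (n : ℝ) / ε ≤ ‖x‖ := by
          have : R < ‖x‖ := hx
          show 2 * (n : ℝ) / ε ≤ ‖x‖
          have h6 : 2 * (n : ℝ) / ε + 1 < ‖x‖ := this
          linarith
        rwa [div_le_iff₀ hε] at this
      exact le_of_mul_le_mul_left (h4.trans h5) hx0
  choose s hs hs' using key
  refine ⟨⋃ n, s n, Set.countable_iUnion hs, fun f => ?_⟩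
  obtain ⟨n, hn⟩ := exists_nat_ge (SchwartzMap.seminorm ℝ (k + 1) l f)
  obtain ⟨g, hg, hfg⟩ := hs' n f hn
  exact ⟨g, Set.mem_iUnion.2 ⟨n, hg⟩, hfg⟩

theorem pf_SSC : T_SSC := by
  intro d
  have h := (SeminormFamily.withSeminorms_iff_topologicalSpace_eq_iInf
    (schwartzSeminormFamily ℝ (V d) ℝ)).1 (schwartz_withSeminorms ℝ (V d) ℝ)
  rw [h]
  refine TopologicalSpace.secondCountableTopology_iInf fun i => ?_
  refine @Metric.secondCountable_of_almost_dense_set (S d)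
    (schwartzSeminormFamily ℝ (V d) ℝ i).toSeminormedAddCommGroup.toPseudoMetricSpace ?_
  intro ε hε
  obtain ⟨s, hs, hs'⟩ := dense_one d i.1 i.2 ε hε
  refine ⟨s, hs, fun f => ?_⟩
  obtain ⟨g, hg, hfg⟩ := hs' f
  refine ⟨g, hg, ?_⟩
  refine le_of_eq_of_le ?_ hfg
  rw [@dist_eq_norm]
  rfl

end Pool.Agent.H82.LD
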